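import Mathlib
import Pool.Agent.H.MP_376bf0_nt.B

set_option autoImplicit false

namespace Pool.Agent.Results.MP_376bf0_nt.Q1

open Filter Topology

/-- The iterated remainder sets: `S n 0 = {1, …, ⌊n/2⌋}` and
`S n (j+1) = {n mod k : k ∈ S n j, k ≠ 0}`. -/
def S (n : ℕ) : ℕ → Finset ℕ
  | 0 => Finset.Icc 1 (n / 2)
  | j + 1 => ((S n j).erase 0).image (fun k => n % k)

/-- For every `j ≥ 2` the sequence `s_j(n)/n` does not converge. -/
theorem result : ∀ j : ℕ, 2 ≤ j →
    ¬ ∃ L : ℝ, Tendsto (fun n : ℕ => ((S n j).card : ℝ) / (n : ℝ)) atTop (𝓝 L) := by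
  have e : ∀ n j, S n j = Pool.Agent.H376b.S n j := by
    intro n j
    induction j with
    | zero => rfl
    | succ j ih => simp only [S, Pool.Agent.H376b.S, ih]
  rintro j hj ⟨L, h⟩
  simp only [e] at h
  exact Pool.Agent.H376b.not_conv j hj L h

end Pool.Agent.Results.MP_376bf0_nt.Q1
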